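import Pool.Agent.Helper76.SGA.Goals
import Pool.Agent.Helper20.Ru.IndMul

/-!
# Packet SGA-SEP (MP_a41896_nt): separation of the last variable
-/

set_option autoImplicit false

open MvPolynomial

namespace Pool.Agent.Helper57.SGA

open Pool.Agent.Helper92.Ru Pool.Agent.Helper42.SG Pool.Agent.Helper76.SGA
open Pool.Agent.Helper20.Ru (cmb_castSucc cmb_last)

variable {k : Type} [Field k] {m : ℕ}

theorem sepL_eq (p : MvPolynomial (Fin (m + 1)) k) :
    sepL k m p = optionEquivLeft k (Fin m) (rename (finSuccEquivLast (n := m)) p) := rfl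

theorem sepL_last : sepL k m (X (Fin.last m)) = Polynomial.X := by
  rw [sepL_eq, rename_X, finSuccEquivLast_last, optionEquivLeft_X_none]

theorem sepL_cast (h : Fin m) : sepL k m (X (Fin.castSucc h)) = Polynomial.C (X h) := by
  rw [sepL_eq, rename_X, finSuccEquivLast_castSucc, optionEquivLeft_X_some]

theorem sepL_C (c : k) : sepL k m (C c) = Polynomial.C (C c) := by
  rw [sepL_eq, rename_C, optionEquivLeft_C]

theorem sepL_coeff (p : MvPolynomial (Fin (m + 1)) k) (a : ℕ) (e : Fin m →₀ ℕ) :
    coeff e ((sepL k m p).coeff a) = coeff (cmb e (Finsupp.single 0 a)) p := by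
  have h1 : (cmb e (Finsupp.single 0 a)).mapDomain (finSuccEquivLast (n := m)) =
      e.optionElim a := by
    ext x
    cases x with
    | none =>
      rw [← finSuccEquivLast_last, Finsupp.mapDomain_apply (finSuccEquivLast (n := m)).injective,
        cmb_last, finSuccEquivLast_last]
      simp
    | some h =>
      rw [← finSuccEquivLast_castSucc,
        Finsupp.mapDomain_apply (finSuccEquivLast (n := m)).injective,
        cmb_castSucc, finSuccEquivLast_castSucc]
      simp
  have h2 := optionEquivLeft_coeff_some_coeff_none k (Fin m) (e.optionElim a)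
    (rename (finSuccEquivLast (n := m)) p)
  rw [← h1, coeff_rename_mapDomain _ (finSuccEquivLast (n := m)).injective, h1] at h2
  rw [← h2, sepL_eq]
  simp

theorem sepL_natDegree (p : MvPolynomial (Fin (m + 1)) k) :
    (sepL k m p).natDegree = p.degreeOf (Fin.last m) := by
  rw [sepL_eq, natDegree_optionEquivLeft, ← finSuccEquivLast_last,
    degreeOf_rename_of_injective (finSuccEquivLast (n := m)).injective]

theorem sepL_degreeOf (p : MvPolynomial (Fin (m + 1)) k) (a : ℕ) (h : Fin m) :
    ((sepL k m p).coeff a).degreeOf h ≤ p.degreeOf (Fin.castSucc h) := by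
  rw [degreeOf_le_iff]
  intro e he
  rw [mem_support_iff, sepL_coeff] at he
  have h1 := monomial_le_degreeOf (Fin.castSucc h) (mem_support_iff.2 he)
  rwa [cmb_castSucc] at h1

theorem shiftP_X {σ : Type} (ξ : σ → k) (i : σ) : shiftP ξ (X i) = X i + C (ξ i) := by
  simp [shiftP]

theorem shiftP_C {σ : Type} (ξ : σ → k) (c : k) : shiftP ξ (C c) = C c := by
  simp [shiftP, algebraMap_eq]

theorem sepL_shift (ξ : Fin (m + 1) → k) (p : MvPolynomial (Fin (m + 1)) k) :
    sepL k m (shiftP ξ p) = Polynomial.taylor (C (ξ (Fin.last m)))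
      ((sepL k m p).map (shiftP (fun h => ξ (Fin.castSucc h))).toRingHom) := by
  induction p using MvPolynomial.induction_on with
  | C c =>
    rw [shiftP_C, sepL_C, Polynomial.map_C, Polynomial.taylor_C]
    congr 1
    exact (shiftP_C (k := k) (fun h : Fin m => ξ (Fin.castSucc h)) c).symm
  | add p q hp hq =>
    rw [map_add, map_add, map_add, Polynomial.map_add, map_add, hp, hq]
  | mul_X p i hp =>
    rw [map_mul, map_mul, map_mul, Polynomial.map_mul, Polynomial.taylor_mul, hp]
    congr 1
    refine Fin.lastCases ?_ (fun j => ?_) i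
    · rw [shiftP_X, map_add, sepL_last, sepL_C, Polynomial.map_X, Polynomial.taylor_X]
    · rw [shiftP_X, map_add, sepL_cast, sepL_C, Polynomial.map_C, Polynomial.taylor_C,
        ← Polynomial.C_add]
      congr 1
      exact (shiftP_X (k := k) (fun h : Fin m => ξ (Fin.castSucc h)) j).symm

theorem sepL_pderiv_cast (p : MvPolynomial (Fin (m + 1)) k) (h : Fin m) : ∀ a : ℕ,
    (sepL k m (pderiv (Fin.castSucc h) p)).coeff a = pderiv h ((sepL k m p).coeff a) := by
  classical
  induction p using MvPolynomial.induction_on with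
  | C c =>
    intro a
    rw [pderiv_C, map_zero, Polynomial.coeff_zero, sepL_C, Polynomial.coeff_C]
    split_ifs
    · rw [pderiv_C]
    · rw [map_zero]
  | add p q hp hq =>
    intro a
    rw [map_add, map_add, Polynomial.coeff_add, hp, hq, map_add, Polynomial.coeff_add, map_add]
  | mul_X p i hp =>
    intro a
    rw [pderiv_mul, map_add, map_mul, map_mul, map_mul]
    refine Fin.lastCases ?_ (fun j => ?_) i
    · rw [pderiv_X_of_ne (Fin.castSucc_ne_last h).symm, map_zero, mul_zero, add_zero, sepL_last]
      cases a with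
      | zero => simp
      | succ a => rw [Polynomial.coeff_mul_X, Polynomial.coeff_mul_X, hp]
    · rw [sepL_cast, Polynomial.coeff_mul_C, pderiv_mul, Polynomial.coeff_add,
        Polynomial.coeff_mul_C, hp]
      congr 1
      by_cases hj : j = h
      · subst hj
        rw [pderiv_X_self, pderiv_X_self, map_one, mul_one, mul_one]
      · rw [pderiv_X_of_ne hj, pderiv_X_of_ne (fun h1 => hj (Fin.castSucc_injective _ h1)),
          map_zero, mul_zero, mul_zero, Polynomial.coeff_zero]

theorem sepL_pderiv_last (p : MvPolynomial (Fin (m + 1)) k) :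
    sepL k m (pderiv (Fin.last m) p) = Polynomial.derivative (sepL k m p) := by
  classical
  induction p using MvPolynomial.induction_on with
  | C c =>
    rw [pderiv_C, map_zero, sepL_C, Polynomial.derivative_C]
  | add p q hp hq =>
    rw [map_add, map_add, hp, hq, map_add, map_add]
  | mul_X p i hp =>
    rw [pderiv_mul, map_add, map_mul, map_mul, map_mul, Polynomial.derivative_mul, hp]
    congr 2
    refine Fin.lastCases ?_ (fun j => ?_) i
    · rw [pderiv_X_self, sepL_last, Polynomial.derivative_X, map_one]
    · rw [pderiv_X_of_ne (Fin.castSucc_ne_last j), sepL_cast, Polynomial.derivative_C, map_zero]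

theorem sep : SEP := by
  intro k _ m
  exact ⟨sepL_last, sepL_cast, sepL_C, sepL_coeff, sepL_natDegree, sepL_degreeOf, sepL_shift,
    fun p a h => sepL_pderiv_cast p h a, sepL_pderiv_last⟩

end Pool.Agent.Helper57.SGA
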